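import Pool.Agent.R424.MP.Cnt

/-!
The number of the points on a line at which the value of a polynomial in several variables is divisible
only by small primes and by the primes dividing the value of another polynomial: a bound which is
uniform in the line (from the proof of `count_bad`, helper file).
-/

set_option autoImplicit false

namespace Pool.Agent.K6.H43.ZL

open Finset Pool.Agent.R424.MP

variable {s : ℕ}

/-- The bound for the fibres, uniform outside of one hypersurface which does not depend on `ε`. -/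
theorem count_fib (h g : Polynomial (MvPolynomial (Fin s) ℤ)) (hdeg : 0 < h.natDegree)
    (hcop : CoprimeTo h g) : ∃ R : MvPolynomial (Fin s) ℤ, R ≠ 0 ∧ ∀ ε : ℝ, 0 < ε →
      ∃ P₁ : ℕ, ∀ P₀ : ℕ, P₁ ≤ P₀ → ∃ C : ℝ, 0 < C ∧
      ∀ B : ℕ, 1 ≤ B → ∀ t : Fin s → ℤ, (∀ i, |t i| ≤ B) → MvPolynomial.eval t R ≠ 0 →
        (((Finset.Icc (-(B : ℤ)) B).filter
          fun x : ℤ => ev x t h = 0 ∨ ∀ p ∈ (ev x t h).natAbs.primeFactors, P₀ < p →
            (p : ℤ) ∣ ev x t g).card : ℝ) ≤ C * (B : ℝ) ^ ε := by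
  classical
  obtain ⟨a, b, R, hR, hab⟩ := hcop
  obtain ⟨C₁, D₁, hC₁⟩ := polyBound_ev h
  obtain ⟨C₂, D₂, hC₂⟩ := polyBound_mv R
  set lc : MvPolynomial (Fin s) ℤ := h.leadingCoeff with hlc
  have hlc0 : lc ≠ 0 := Polynomial.leadingCoeff_ne_zero.2 (fun h0 => by
    rw [h0, Polynomial.natDegree_zero] at hdeg
    exact lt_irrefl _ hdeg)
  have hR' : R * lc ≠ 0 := mul_ne_zero hR hlc0
  refine ⟨R * lc, hR', fun ε hε => ?_⟩
  -- the exponents
  set δ : ℝ := ε / (D₁ + D₂ + 1) with hδdef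
  have hD : (0 : ℝ) < D₁ + D₂ + 1 := by positivity
  have hδ : 0 < δ := div_pos hε hD
  have hδε : δ * (D₁ + D₂) ≤ ε := by
    rw [hδdef, div_mul_eq_mul_div, div_le_iff₀ hD]
    nlinarith
  obtain ⟨P₁, hP₁⟩ : ∃ P₁ : ℕ, 1 ≤ P₁ ∧ 2 ≤ (P₁ : ℝ) ^ δ := by
    obtain ⟨n, hn⟩ := exists_nat_ge ((2 : ℝ) ^ (1 / δ))
    refine ⟨max n 1, le_max_right _ _, ?_⟩
    have h1 : (2 : ℝ) ^ (1 / δ) ≤ (max n 1 : ℕ) := hn.trans (by exact_mod_cast le_max_left _ _)
    calc (2 : ℝ) = ((2 : ℝ) ^ (1 / δ)) ^ δ := by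
          rw [← Real.rpow_mul (by norm_num), one_div, inv_mul_cancel₀ hδ.ne', Real.rpow_one]
      _ ≤ _ := Real.rpow_le_rpow (by positivity) h1 hδ.le
  refine ⟨P₁, fun P₀ hP₀ => ?_⟩
  have hP : 2 ≤ (P₀ : ℝ) ^ δ :=
    hP₁.2.trans (Real.rpow_le_rpow (Nat.cast_nonneg _) (by exact_mod_cast hP₀) hδ.le)
  obtain ⟨C₀, hC₀, hprod⟩ := prod_bound P₀ hδ hP
  set d : ℕ := h.natDegree with hd
  have hdR : (0 : ℝ) < d := by exact_mod_cast hdeg
  refine ⟨d * (1 + 2 * (((C₁ : ℝ)) ^ δ * (C₀ * (C₂ : ℝ) ^ δ))), by positivity, fun B hB => ?_⟩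
  have hBR : (1 : ℝ) ≤ B := by exact_mod_cast hB
  have hB0 : (0 : ℝ) < B := by linarith
  let I : Finset ℤ := Finset.Icc (-(B : ℤ)) B
  let bad : ℤ × (Fin s → ℤ) → Prop := fun z => ev z.1 z.2 h = 0 ∨
    ∀ p ∈ (ev z.1 z.2 h).natAbs.primeFactors, P₀ < p → (p : ℤ) ∣ ev z.1 z.2 g
  suffices hmain : ∀ t : Fin s → ℤ, (∀ i, |t i| ≤ B) → MvPolynomial.eval t (R * lc) ≠ 0 →
      ((I.filter fun x => bad (x, t)).card : ℝ) ≤
        d * (1 + 2 * (((C₁ : ℝ)) ^ δ * (C₀ * (C₂ : ℝ) ^ δ))) * (B : ℝ) ^ ε from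
    fun t htB hne => hmain t htB hne
  intro t htB hne
  rw [map_mul] at hne
  have hRt : MvPolynomial.eval t R ≠ 0 := left_ne_zero_of_mul hne
  have hlct : MvPolynomial.eval t lc ≠ 0 := right_ne_zero_of_mul hne
  let X : ℕ := C₁ * B ^ D₁
  let Rn : ℕ := (MvPolynomial.eval t R).natAbs
  have hRn : 0 < Rn := Int.natAbs_pos.2 hRt
  let sp : Finset ℕ := Finset.range (P₀ + 1) ∪ Rn.primeFactors
  let A : Finset ℕ := (Finset.Icc 1 X).filter fun n => n ∈ Nat.factoredNumbers sp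
  have hAc : (A.card : ℝ) ≤ (X : ℝ) ^ δ * (C₀ * (Rn : ℝ) ^ δ) := by
    have h1 := count_factored sp hδ X A (fun n hn => by
      obtain ⟨h2, h3⟩ := Finset.mem_filter.1 hn
      obtain ⟨h4, h5⟩ := Finset.mem_Icc.1 h2
      exact ⟨h4, h5, h3⟩)
    exact h1.trans (mul_le_mul_of_nonneg_left (hprod Rn hRn)
      (Real.rpow_nonneg (Nat.cast_nonneg _) _))
  -- the values
  let vals : Finset ℤ := insert 0 (A.image (fun n : ℕ => (n : ℤ)) ∪ A.image (fun n : ℕ => -(n : ℤ)))
  have hvals : (vals.card : ℝ) ≤ 1 + 2 * A.card := by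
    have h1 : vals.card ≤ 1 + 2 * A.card := by
      calc vals.card ≤ _ + 1 := Finset.card_insert_le _ _
        _ ≤ (A.image (fun n : ℕ => (n : ℤ))).card + (A.image (fun n : ℕ => -(n : ℤ))).card + 1 := by
            gcongr
            exact Finset.card_union_le _ _
        _ ≤ A.card + A.card + 1 := by gcongr <;> exact Finset.card_image_le
        _ = 1 + 2 * A.card := by ring
    exact_mod_cast h1
  let hp : Polynomial ℤ := h.map (MvPolynomial.eval t)
  have hpdeg : hp.natDegree = d := Polynomial.natDegree_map_of_leadingCoeff_ne_zero _ hlct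
  have hpev : ∀ x, ev x t h = hp.eval x := by
    intro x
    rw [ev, Polynomial.coe_eval₂RingHom, Polynomial.eval_map]
  have hsub : (I.filter fun x => bad (x, t)) ⊆
      vals.biUnion fun n => (hp - Polynomial.C n).roots.toFinset := by
    intro x hx
    obtain ⟨hxI, hxb⟩ := Finset.mem_filter.1 hx
    have hxB : |x| ≤ B := abs_le.2 (Finset.mem_Icc.1 hxI)
    refine Finset.mem_biUnion.2 ⟨ev x t h, ?_, ?_⟩
    · by_cases h0 : ev x t h = 0
      · rw [h0]
        exact Finset.mem_insert_self _ _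
      have hb : ∀ p ∈ (ev x t h).natAbs.primeFactors, P₀ < p → (p : ℤ) ∣ ev x t g := by
        rcases hxb with h1 | h1
        · exact absurd h1 h0
        · exact h1
      have hmem : (ev x t h).natAbs ∈ A := by
        refine Finset.mem_filter.2 ⟨Finset.mem_Icc.2 ⟨Int.natAbs_pos.2 h0, ?_⟩, ?_⟩
        · have h1 := hC₁ B hB x t hxB htB
          have h2 : ((ev x t h).natAbs : ℤ) ≤ (X : ℕ) := by
            rw [Int.natCast_natAbs]
            change _ ≤ ((C₁ * B ^ D₁ : ℕ) : ℤ)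
            push_cast
            exact h1
          exact_mod_cast h2
        · refine Nat.mem_factoredNumbers_of_primeFactors_subset (Int.natAbs_ne_zero.2 h0) ?_
          intro p hp
          by_cases hpP : P₀ < p
          · refine Finset.mem_union_right _ (Nat.mem_primeFactors.2
              ⟨Nat.prime_of_mem_primeFactors hp, ?_, hRn.ne'⟩)
            have h1 : (p : ℤ) ∣ ev x t g := hb p hp hpP
            have h2 : (p : ℤ) ∣ ev x t h := Int.natCast_dvd.2 (Nat.dvd_of_mem_primeFactors hp)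
            have h3 : ev x t (a * h + b * g) = MvPolynomial.eval t R := by
              rw [hab, ev, Polynomial.coe_eval₂RingHom, Polynomial.eval₂_C]
            rw [map_add, map_mul, map_mul] at h3
            have h4 : (p : ℤ) ∣ MvPolynomial.eval t R := by
              rw [← h3]
              exact (h2.mul_left _).add (h1.mul_left _)
            exact Int.natCast_dvd.1 h4
          · exact Finset.mem_union_left _ (Finset.mem_range.2 (by omega))
      refine Finset.mem_insert_of_mem (Finset.mem_union.2 ?_)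
      rcases le_total 0 (ev x t h) with h5 | h5
      · exact Or.inl (Finset.mem_image.2 ⟨_, hmem, Int.natAbs_of_nonneg h5⟩)
      · refine Or.inr (Finset.mem_image.2 ⟨_, hmem, ?_⟩)
        rw [Int.ofNat_natAbs_of_nonpos h5, neg_neg]
    · have hne0 : hp - Polynomial.C (ev x t h) ≠ 0 := by
        intro h0
        have h1 : hp = Polynomial.C (ev x t h) := sub_eq_zero.1 h0
        rw [h1, Polynomial.natDegree_C] at hpdeg
        omega
      rw [Multiset.mem_toFinset, Polynomial.mem_roots hne0, Polynomial.IsRoot,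
        Polynomial.eval_sub, Polynomial.eval_C, hpev, sub_self]
  have hroots : ∀ n : ℤ, (hp - Polynomial.C n).roots.toFinset.card ≤ d := by
    intro n
    calc (hp - Polynomial.C n).roots.toFinset.card ≤ (hp - Polynomial.C n).roots.card :=
          Multiset.toFinset_card_le _
      _ ≤ (hp - Polynomial.C n).natDegree := Polynomial.card_roots' _
      _ ≤ d := by rw [Polynomial.natDegree_sub_C, hpdeg]
  have hcard : ((I.filter fun x => bad (x, t)).card : ℝ) ≤ d * (1 + 2 * A.card) := by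
    have h1 : (I.filter fun x => bad (x, t)).card ≤ d * vals.card := by
      calc _ ≤ _ := Finset.card_le_card hsub
        _ ≤ ∑ n ∈ vals, (hp - Polynomial.C n).roots.toFinset.card := Finset.card_biUnion_le
        _ ≤ ∑ n ∈ vals, d := Finset.sum_le_sum fun n _ => hroots n
        _ = d * vals.card := by rw [Finset.sum_const, smul_eq_mul, mul_comm]
    calc ((I.filter fun x => bad (x, t)).card : ℝ) ≤ ((d * vals.card : ℕ) : ℝ) := by
          exact_mod_cast h1
      _ = d * (vals.card : ℝ) := by push_cast; rfl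
      _ ≤ d * (1 + 2 * A.card) := by gcongr
  have hRnB : (Rn : ℝ) ≤ C₂ * (B : ℝ) ^ D₂ := by
    have h1 := hC₂ B hB 0 t (by simp) htB
    have h2 : ((Rn : ℕ) : ℤ) ≤ ((C₂ * B ^ D₂ : ℕ) : ℤ) := by
      change (((MvPolynomial.eval t R).natAbs : ℕ) : ℤ) ≤ _
      rw [Int.natCast_natAbs]
      push_cast
      exact h1
    exact_mod_cast h2
  have hXB : (X : ℝ) = C₁ * (B : ℝ) ^ D₁ := by
    change ((C₁ * B ^ D₁ : ℕ) : ℝ) = _
    push_cast
    rfl
  have hpow : (A.card : ℝ) ≤ ((C₁ : ℝ) ^ δ * (C₀ * (C₂ : ℝ) ^ δ)) * (B : ℝ) ^ ε := by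
    calc (A.card : ℝ) ≤ (X : ℝ) ^ δ * (C₀ * (Rn : ℝ) ^ δ) := hAc
      _ ≤ (C₁ * (B : ℝ) ^ D₁) ^ δ * (C₀ * (C₂ * (B : ℝ) ^ D₂) ^ δ) := by
          rw [hXB]
          gcongr
      _ = ((C₁ : ℝ) ^ δ * (C₀ * (C₂ : ℝ) ^ δ)) * (((B : ℝ) ^ D₁) ^ δ * ((B : ℝ) ^ D₂) ^ δ) := by
          rw [Real.mul_rpow (Nat.cast_nonneg _) (by positivity),
            Real.mul_rpow (Nat.cast_nonneg _) (by positivity)]
          ring
      _ ≤ ((C₁ : ℝ) ^ δ * (C₀ * (C₂ : ℝ) ^ δ)) * (B : ℝ) ^ ε := by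
          have h1 : ((B : ℝ) ^ D₁) ^ δ * ((B : ℝ) ^ D₂) ^ δ = (B : ℝ) ^ (δ * (D₁ + D₂)) := by
            rw [← Real.rpow_natCast, ← Real.rpow_natCast, ← Real.rpow_mul hB0.le,
              ← Real.rpow_mul hB0.le, ← Real.rpow_add hB0]
            congr 1
            ring
          rw [h1]
          gcongr
  have hBε : (1 : ℝ) ≤ (B : ℝ) ^ ε := Real.one_le_rpow hBR hε.le
  calc _ ≤ (d : ℝ) * (1 + 2 * A.card) := hcard
    _ ≤ d * (1 * (B : ℝ) ^ ε + 2 * (((C₁ : ℝ) ^ δ * (C₀ * (C₂ : ℝ) ^ δ)) * (B : ℝ) ^ ε)) := by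
        gcongr
        linarith
    _ = _ := by ring

end Pool.Agent.K6.H43.ZL
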