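import Pool.Agent.R424.TG.Hdg
import Mathlib.SetTheory.Cardinal.Subfield

/-!
Families with several parameters over arbitrary fields: the tropicalizations along hypersurfaces and
the tropicalizations of the one-parameter families on lines (helper file).
-/

set_option autoImplicit false

namespace Pool.Agent.K6.H43.ZL

open MvPolynomial Pool.Agent.R424.TG
open Pool.Agent.Y152.RP.FamM (NoAtypical evalAt)
open Pool.Agent.R424.MX (order)

section Def

/-- `h` and `g` have no common factor of positive degree. -/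
def Coprime {A : Type} [CommRing A] (h g : Polynomial A) : Prop :=
  ∃ (a b : Polynomial A) (R : A), R ≠ 0 ∧ a * h + b * g = Polynomial.C R

/-- `c = h ^ e g`, where `h` and `g` have no common factor of positive degree. -/
def Order {A : Type} [CommRing A] (h c : Polynomial A) (e : ℕ) : Prop :=
  ∃ g, c = h ^ e * g ∧ Coprime h g

variable {s : ℕ}

/-- The field `K(t_1, …, t_s)`. -/
noncomputable def fieldAt (K : Subfield ℂ) (t : Fin s → ℂ) : Subfield ℂ :=
  Subfield.closure ((K : Set ℂ) ∪ Set.range t)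

/-- The value of a polynomial in `t_1, …, t_s`. -/
noncomputable def valueT (K : Subfield ℂ) (t : Fin s → ℂ) : MvPolynomial (Fin s) K →+* ℂ :=
  eval₂Hom K.subtype t

/-- The value of a polynomial in `t_0` and `t_1, …, t_s`. -/
noncomputable def valueAt (K : Subfield ℂ) (x : ℂ) (t : Fin s → ℂ) :
    Polynomial (MvPolynomial (Fin s) K) →+* ℂ :=
  Polynomial.eval₂RingHom (valueT K t) x

/-- For every type of special subvarieties of dimension less than `n + k - m` the hypersurfaces
`h l = 0` whose tropicalizations have no compatible point have together degree at least `σ` in the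
first variable. -/
def GenericDegree {A : Type} [CommRing A] {n k N M : ℕ} {κ : Type} (m σ : ℕ)
    (supp : κ → Finset (((Fin n ⊕ Fin k) ⊕ Fin N) →₀ ℕ)) (h : Fin M → Polynomial A)
    (e : Fin M → κ → (((Fin n ⊕ Fin k) ⊕ Fin N) →₀ ℕ) → ℕ) : Prop :=
  ∀ (r : ℕ) (cls : Fin n → Option (Fin r)) (d : Fin n → ℕ) (L : Submodule ℚ (Fin k → ℚ)),
    (∀ i, 0 < d i) → r + Module.finrank ℚ L + m < n + k →
      ∃ I : Finset (Fin M), σ ≤ ∑ l ∈ I, (h l).natDegree ∧
        ∀ l ∈ I, ∀ w, (∀ q, TropAt (supp q) (e l q) w) → ¬ Compatible cls d L w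

end Def

variable {K : Subfield ℂ} {s : ℕ}

theorem countable_fieldAt [hK : Countable K] (t : Fin s → ℂ) : Countable (fieldAt K t) := by
  have h1 := Subfield.cardinalMk_closure_le_max ((K : Set ℂ) ∪ Set.range t)
  have h2 : ((K : Set ℂ) ∪ Set.range t).Countable :=
    (Set.countable_coe_iff.1 hK).union (Set.countable_range t)
  have h3 : Cardinal.mk (fieldAt K t) ≤ Cardinal.aleph0 := by
    refine h1.trans (max_le ?_ le_rfl)
    exact Cardinal.mk_le_aleph0_iff.2 h2.to_subtype
  exact Cardinal.mk_le_aleph0_iff.1 h3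

theorem le_fieldAt (t : Fin s → ℂ) : K ≤ fieldAt K t := fun _ hx =>
  Subfield.subset_closure (Or.inl hx)

theorem mem_fieldAt (t : Fin s → ℂ) (i : Fin s) : t i ∈ fieldAt K t :=
  Subfield.subset_closure (Or.inr ⟨i, rfl⟩)

/-- The specialisation. -/
noncomputable def spec (K : Subfield ℂ) (t : Fin s → ℂ) : MvPolynomial (Fin s) K →+* fieldAt K t :=
  eval₂Hom (Subfield.inclusion (le_fieldAt t)) fun i => ⟨t i, mem_fieldAt t i⟩

theorem spec_comp (t : Fin s → ℂ) :
    (algebraMap (fieldAt K t) ℂ).comp (spec K t) = valueT K t := by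
  refine MvPolynomial.ringHom_ext (fun a => ?_) fun i => ?_
  · simp only [RingHom.comp_apply, spec, valueT, coe_eval₂Hom, eval₂_C]
    rfl
  · simp only [RingHom.comp_apply, spec, valueT, coe_eval₂Hom, eval₂_X]
    rfl

theorem evalAt_spec (x : ℂ) (t : Fin s → ℂ) :
    (evalAt (fieldAt K t) x).comp (Polynomial.mapRingHom (spec K t)) = valueAt K x t := by
  refine Polynomial.ringHom_ext (fun a => ?_) ?_
  · have h1 : valueT K t a = algebraMap (fieldAt K t) ℂ (spec K t a) := by
      rw [← spec_comp]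
      rfl
    simp only [RingHom.comp_apply, Polynomial.coe_mapRingHom, Polynomial.map_C, valueAt,
      Polynomial.coe_eval₂RingHom, Polynomial.eval₂_C, evalAt]
    rw [h1]
    exact Polynomial.aeval_C x _
  · simp only [RingHom.comp_apply, Polynomial.coe_mapRingHom, Polynomial.map_X, valueAt,
      Polynomial.coe_eval₂RingHom, Polynomial.eval₂_X, evalAt]
    exact Polynomial.aeval_X x

theorem tropAt_congr {σ : Type} [Fintype σ] {supp : Finset (σ →₀ ℕ)} {e e' : (σ →₀ ℕ) → ℕ}
    (h : ∀ β ∈ supp, e β = e' β) {w : σ → WithTop ℚ} (hw : TropAt supp e w) : TropAt supp e' w := by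
  rcases hw with h1 | ⟨a, ha, b, hb, hab, h2, h3⟩
  · exact Or.inl fun β hβ => by rw [← h β hβ]; exact h1 β hβ
  · refine Or.inr ⟨a, ha, b, hb, hab, ?_, fun β hβ => ?_⟩
    · rw [← h a ha, ← h b hb]
      exact h2
    · rw [← h a ha, ← h β hβ]
      exact h3 β hβ

section Roots

variable {A : Type} [CommRing A] (ψ : A →+* ℂ)

theorem coprime_eval {h g : Polynomial A} {a b : Polynomial A} {R : A}
    (hab : a * h + b * g = Polynomial.C R) (hR : ψ R ≠ 0) {α : ℂ} (h0 : (h.map ψ).eval α = 0) :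
    (g.map ψ).eval α ≠ 0 := by
  intro h1
  have h2 := congrArg (fun p => (p.map ψ).eval α) hab
  simp only [Polynomial.map_add, Polynomial.map_mul, Polynomial.eval_add, Polynomial.eval_mul, h0,
    h1, mul_zero, add_zero, Polynomial.map_C, Polynomial.eval_C] at h2
  exact hR h2.symm

theorem separable_map {h : Polynomial A} {a b : Polynomial A} {R : A}
    (hab : a * h + b * Polynomial.derivative h = Polynomial.C R) (hR : ψ R ≠ 0) :
    (h.map ψ).Separable := by
  refine ⟨Polynomial.C (ψ R)⁻¹ * a.map ψ, Polynomial.C (ψ R)⁻¹ * b.map ψ, ?_⟩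
  have h2 := congrArg (Polynomial.map ψ) hab
  rw [Polynomial.map_add, Polynomial.map_mul, Polynomial.map_mul, ← Polynomial.derivative_map,
    Polynomial.map_C] at h2
  rw [mul_assoc, mul_assoc, ← mul_add, h2, ← Polynomial.C_mul, inv_mul_cancel₀ hR, Polynomial.C_1]

/-- The common statement about one hypersurface: the multiplicity of the roots of `h ^ e g`. -/
theorem mult_map {A : Type} [CommRing A] (ψ : A →+* ℂ) {h g : Polynomial A} {e : ℕ}
    (hsep : (h.map ψ).Separable) {α : ℂ} (h0 : (h.map ψ).eval α = 0) (hg : (g.map ψ).eval α ≠ 0) :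
    ((h ^ e * g).map ψ).rootMultiplicity α = e := by
  have hh : h.map ψ ≠ 0 := hsep.ne_zero
  have hg0 : g.map ψ ≠ 0 := fun h1 => hg (by rw [h1, Polynomial.eval_zero])
  have h1 : (h.map ψ).rootMultiplicity α = 1 := by
    refine le_antisymm (Polynomial.rootMultiplicity_le_one_of_separable hsep α) ?_
    exact (Polynomial.rootMultiplicity_pos hh).2 h0
  have h2 : ∀ e : ℕ, ((h.map ψ) ^ e).rootMultiplicity α = e := by
    intro e
    induction e with
    | zero =>
      rw [pow_zero]
      exact Polynomial.rootMultiplicity_eq_zero (by simp [Polynomial.IsRoot])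
    | succ e ih =>
      rw [pow_succ, Polynomial.rootMultiplicity_mul (mul_ne_zero (pow_ne_zero _ hh) hh), ih, h1]
  rw [Polynomial.map_mul, Polynomial.map_pow,
    Polynomial.rootMultiplicity_mul (mul_ne_zero (pow_ne_zero _ hh) hg0), h2,
    Polynomial.rootMultiplicity_eq_zero (show ¬ (g.map ψ).IsRoot α from hg), add_zero]

theorem card_map {A : Type} [CommRing A] (ψ : A →+* ℂ) {h : Polynomial A}
    (hsep : (h.map ψ).Separable) (hlc : ψ h.leadingCoeff ≠ 0) :
    (h.map ψ).roots.toFinset.card = h.natDegree := by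
  rw [Multiset.toFinset_card_of_nodup (Polynomial.nodup_roots hsep),
    IsAlgClosed.card_roots_eq_natDegree, Polynomial.natDegree_map_of_leadingCoeff_ne_zero _ hlc]

end Roots

section Main

variable [Countable K]

/-- Outside of one hypersurface the tropicalizations of the one-parameter family on the line are the
tropicalizations along the hypersurfaces `h l = 0`. -/
theorem generic_lines {κ : Type} [Finite κ] {n k N m M : ℕ}
    (E : κ → MvPolynomial ((Fin n ⊕ Fin k) ⊕ Fin N) (Polynomial (MvPolynomial (Fin s) K)))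
    (h : Fin M → Polynomial (MvPolynomial (Fin s) K))
    (hsep : ∀ l, Coprime (h l) (Polynomial.derivative (h l)))
    (hpair : ∀ l l', l ≠ l' → Coprime (h l) (h l'))
    (e : Fin M → κ → (((Fin n ⊕ Fin k) ⊕ Fin N) →₀ ℕ) → ℕ)
    (he : ∀ l q, ∀ β ∈ (E q).support, Order (h l) ((E q).coeff β) (e l q β)) :
    ∃ R : MvPolynomial (Fin s) K, R ≠ 0 ∧ ∀ t : Fin s → ℂ, valueT K t R ≠ 0 →
      ∀ σ : ℕ, GenericDegree m σ (fun q => (E q).support) h e →
        ∃ D : Finset ℂ, (∀ α ∈ D, IsAlgebraic (fieldAt K t) α) ∧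
          Generic m σ (fun q => MvPolynomial.map (Polynomial.mapRingHom (spec K t)) (E q)) D := by
  classical
  have := Fintype.ofFinite κ
  let ι := Σ q : κ, {β // β ∈ (E q).support}
  have hg : ∀ (l : Fin M) (x : ι), ∃ g, (E x.1).coeff x.2 = h l ^ e l x.1 x.2 * g ∧
      Coprime (h l) g := fun l x => he l x.1 _ x.2.2
  choose g hg1 hg2 using hg
  choose a1 b1 R1 hR1 h1 using hsep
  have hpair' : ∀ l l' : Fin M, ∃ (a b : Polynomial (MvPolynomial (Fin s) K))
      (R : MvPolynomial (Fin s) K), R ≠ 0 ∧ (l ≠ l' → a * h l + b * h l' = Polynomial.C R) := by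
    intro l l'
    by_cases hl : l = l'
    · exact ⟨0, 0, 1, one_ne_zero, fun h' => absurd hl h'⟩
    · obtain ⟨a, b, R, hR, hab⟩ := hpair l l' hl
      exact ⟨a, b, R, hR, fun _ => hab⟩
  choose a2 b2 R2 hR2 h2 using hpair'
  choose a3 b3 R3 hR3 h3 using hg2
  have hh0 : ∀ l, h l ≠ 0 := by
    intro l h0
    have h4 := h1 l
    rw [h0, Polynomial.derivative_zero, mul_zero, mul_zero, add_zero] at h4
    exact hR1 l (Polynomial.C_eq_zero.1 h4.symm)
  refine ⟨(∏ x : ι, ((E x.1).coeff x.2).leadingCoeff) * (∏ l, (h l).leadingCoeff) * (∏ l, R1 l) *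
    (∏ l, ∏ l', R2 l l') * ∏ l, ∏ x, R3 l x, ?_, ?_⟩
  · refine mul_ne_zero (mul_ne_zero (mul_ne_zero (mul_ne_zero ?_ ?_) ?_) ?_) ?_
    · exact Finset.prod_ne_zero_iff.2 fun x _ =>
        Polynomial.leadingCoeff_ne_zero.2 (mem_support_iff.1 x.2.2)
    · exact Finset.prod_ne_zero_iff.2 fun l _ => Polynomial.leadingCoeff_ne_zero.2 (hh0 l)
    · exact Finset.prod_ne_zero_iff.2 fun l _ => hR1 l
    · exact Finset.prod_ne_zero_iff.2 fun l _ => Finset.prod_ne_zero_iff.2 fun l' _ => hR2 l l'
    · exact Finset.prod_ne_zero_iff.2 fun l _ => Finset.prod_ne_zero_iff.2 fun x _ => hR3 l x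
  intro t ht σ hgen
  set ψ : MvPolynomial (Fin s) K →+* ℂ := valueT K t with hψ
  simp only [map_mul, map_prod, mul_ne_zero_iff, Finset.prod_ne_zero_iff] at ht
  obtain ⟨⟨⟨⟨t1, t2⟩, t3⟩, t4⟩, t5⟩ := ht
  have hsepm : ∀ l, ((h l).map ψ).Separable := fun l =>
    separable_map ψ (h1 l) (t3 l (Finset.mem_univ l))
  let rt : Fin M → Finset ℂ := fun l => ((h l).map ψ).roots.toFinset
  have hrt : ∀ l α, α ∈ rt l → ((h l).map ψ).eval α = 0 := by
    intro l α hα
    have h4 := Multiset.mem_toFinset.1 hα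
    exact (Polynomial.mem_roots (hsepm l).ne_zero).1 h4
  have hmapmap : ∀ c : Polynomial (MvPolynomial (Fin s) K),
      (c.map (spec K t)).map (algebraMap (fieldAt K t) ℂ) = c.map ψ := by
    intro c
    rw [Polynomial.map_map, spec_comp]
  -- the support
  have hsupp : ∀ q, (MvPolynomial.map (Polynomial.mapRingHom (spec K t)) (E q)).support =
      (E q).support := by
    intro q
    ext β
    rw [mem_support_iff, mem_support_iff, coeff_map]
    constructor
    · intro h4 h5
      exact h4 (by rw [h5, map_zero])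
    · intro h4 h5
      have h6 := t1 ⟨q, β, mem_support_iff.2 h4⟩ (Finset.mem_univ _)
      apply h6
      change ψ ((E q).coeff β).leadingCoeff = 0
      rw [hψ, ← spec_comp, RingHom.comp_apply]
      have h7 : spec K t ((E q).coeff β).leadingCoeff = 0 := by
        have h8 := congrArg (fun p => p.coeff ((E q).coeff β).natDegree) h5
        simpa using h8
      rw [h7, map_zero]
  -- the orders
  have hord : ∀ l α, α ∈ rt l → ∀ q, ∀ β ∈ (E q).support,
      order ((MvPolynomial.map (Polynomial.mapRingHom (spec K t)) (E q)).coeff β) α = e l q β := by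
    intro l α hα q β hβ
    have h4 : ((E q).coeff β) = h l ^ e l q β * g l ⟨q, β, hβ⟩ := hg1 l ⟨q, β, hβ⟩
    rw [order, coeff_map, Polynomial.coe_mapRingHom, hmapmap, h4]
    exact mult_map ψ (hsepm l) (hrt l α hα)
      (coprime_eval ψ (h3 l ⟨q, β, hβ⟩) (t5 l (Finset.mem_univ l) _ (Finset.mem_univ _))
        (hrt l α hα))
  refine ⟨Finset.univ.biUnion rt, ?_, ?_⟩
  · intro α hα
    obtain ⟨l, -, hl⟩ := Finset.mem_biUnion.1 hα
    refine ⟨(h l).map (spec K t), ?_, ?_⟩
    · intro h0
      apply (hsepm l).ne_zero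
      rw [← hmapmap, h0, Polynomial.map_zero]
    · have h4 := hrt l α hl
      rw [← hmapmap, Polynomial.eval_map, ← Polynomial.aeval_def] at h4
      exact h4
  · intro r cls d L hd hr
    obtain ⟨I, hI, hno⟩ := hgen r cls d L hd hr
    refine ⟨I.biUnion rt, Finset.biUnion_subset_biUnion_of_subset_left _ (Finset.subset_univ _), ?_,
      ?_⟩
    · rw [Finset.card_biUnion]
      · refine hI.trans (Finset.sum_le_sum fun l _ => ?_)
        exact (card_map ψ (hsepm l) (t2 l (Finset.mem_univ l))).ge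
      · intro l _ l' _ hll
        change Disjoint (rt l) (rt l')
        rw [Finset.disjoint_left]
        intro α hα hα'
        exact coprime_eval ψ (h2 l l' hll) (t4 l (Finset.mem_univ l) l' (Finset.mem_univ l'))
          (hrt l α hα) (hrt l' α hα')
    · intro α hα w hw
      obtain ⟨l, hl, hαl⟩ := Finset.mem_biUnion.1 hα
      refine hno l hl w fun q => ?_
      have h4 := hw q
      rw [hsupp] at h4
      exact tropAt_congr (fun β hβ => hord l α hαl q β hβ) h4

/-- The numbers in the ring (`σ = 2`) or in the field (`σ = 3`) generated by `F`. -/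
def generated (σ : ℕ) (F : Finset ℂ) : Set ℂ :=
  {x | (σ = 2 ∧ x ∈ Subring.closure (F : Set ℂ)) ∨ (σ = 3 ∧ x ∈ Subfield.closure (F : Set ℂ))}

/-- The image of the period map. -/
theorem image_lines {κ₀ κ : Type} {n k N : ℕ} (x : ℂ) (t : Fin s → ℂ)
    (P : κ₀ → MvPolynomial (Fin N) (Polynomial (MvPolynomial (Fin s) K)))
    (A B : Fin n → MvPolynomial (Fin N) (Polynomial (MvPolynomial (Fin s) K)))
    (U : Fin k → MvPolynomial (Fin N) (Polynomial (MvPolynomial (Fin s) K)))
    (E : κ → MvPolynomial ((Fin n ⊕ Fin k) ⊕ Fin N) (Polynomial (MvPolynomial (Fin s) K)))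
    (hE : ∀ y, OnS (R := Polynomial (MvPolynomial (Fin s) K)) (valueAt K x t) P A B U y → ∀ q,
      eval₂ (valueAt K x t) (Sum.elim
        (period (R := Polynomial (MvPolynomial (Fin s) K)) (valueAt K x t) A B U y) y) (E q) = 0) :
    image (R := Polynomial (MvPolynomial (Fin s) K)) (valueAt K x t) P A B U ⊆
      member x fun q => MvPolynomial.map (Polynomial.mapRingHom (spec K t)) (E q) := by
  rintro z ⟨y, hy, rfl⟩
  refine ⟨fun j => hy.2.2 j, y, fun q => ?_⟩
  have h1 := hE y hy q
  rw [MvPolynomial.eval₂_map, evalAt_spec]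
  exact h1

/-- **Families with several parameters: the members on the lines.** -/
theorem linesT {κ₀ κ : Type} [Finite κ] {n k N m M : ℕ}
    (P : κ₀ → MvPolynomial (Fin N) (Polynomial (MvPolynomial (Fin s) K)))
    (A B : Fin n → MvPolynomial (Fin N) (Polynomial (MvPolynomial (Fin s) K)))
    (U : Fin k → MvPolynomial (Fin N) (Polynomial (MvPolynomial (Fin s) K)))
    (E : κ → MvPolynomial ((Fin n ⊕ Fin k) ⊕ Fin N) (Polynomial (MvPolynomial (Fin s) K)))
    (hE : ∀ (x : ℂ) (t : Fin s → ℂ) (y : Fin N → ℂ),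
      OnS (R := Polynomial (MvPolynomial (Fin s) K)) (valueAt K x t) P A B U y → ∀ q,
      eval₂ (valueAt K x t) (Sum.elim
        (period (R := Polynomial (MvPolynomial (Fin s) K)) (valueAt K x t) A B U y) y) (E q) = 0)
    (h : Fin M → Polynomial (MvPolynomial (Fin s) K))
    (hsep : ∀ l, Coprime (h l) (Polynomial.derivative (h l)))
    (hpair : ∀ l l', l ≠ l' → Coprime (h l) (h l'))
    (e : Fin M → κ → (((Fin n ⊕ Fin k) ⊕ Fin N) →₀ ℕ) → ℕ)
    (he : ∀ l q, ∀ β ∈ (E q).support, Order (h l) ((E q).coeff β) (e l q β)) :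
    ∃ R : MvPolynomial (Fin s) K, R ≠ 0 ∧ ∀ t : Fin s → ℂ, valueT K t R ≠ 0 →
      ∀ σ : ℕ, GenericDegree m σ (fun q => (E q).support) h e →
      ∀ Γ : Finset ℂ, (∀ γ ∈ Γ, IsAlgebraic (fieldAt K t) γ) →
      ∀ F : Finset ℂ, (∀ z ∈ F, IsAlgebraic (fieldAt K t) z) →
        {x : ℂ | x ∈ generated σ F ∧
          ¬ NoAtypicalHodge (algebraMap (Algebra.adjoin ℤ (Γ : Set ℂ)) ℂ) (fieldAt K t) m
            (image (R := Polynomial (MvPolynomial (Fin s) K)) (valueAt K x t) P A B U)}.Finite := by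
  obtain ⟨R, hR, hmain⟩ := generic_lines (m := m) E h hsep hpair e he
  refine ⟨R, hR, fun t ht σ hgen Γ hΓ F hF => ?_⟩
  obtain ⟨D, hD, hG⟩ := hmain t ht σ hgen
  have hcount : Countable (fieldAt K t) := countable_fieldAt t
  obtain ⟨-, h2, h3, -⟩ := familyT (fieldAt K t) κ n k N m _ D hD Γ hΓ F hF
  have key : ∀ x : ℂ, ¬ NoAtypicalHodge (algebraMap (Algebra.adjoin ℤ (Γ : Set ℂ)) ℂ)
      (fieldAt K t) m
      (image (R := Polynomial (MvPolynomial (Fin s) K)) (valueAt K x t) P A B U) →
      ¬ NoAtypical (algebraMap (Algebra.adjoin ℤ (Γ : Set ℂ)) ℂ) (fieldAt K t) m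
        (member x fun q => MvPolynomial.map (Polynomial.mapRingHom (spec K t)) (E q)) :=
    fun x hx h4 => hx (noAtypicalHodge_of h4 (image_lines x t P A B U E (hE x t)))
  by_cases hσ2 : σ = 2
  · subst hσ2
    refine (h3 hG).subset ?_
    rintro x ⟨hx1 | hx1, hx2⟩
    · exact ⟨hx1.2, key x hx2⟩
    · exact absurd hx1.1 (by norm_num)
  · by_cases hσ3 : σ = 3
    · subst hσ3
      refine (h2 hG).subset ?_
      rintro x ⟨hx1 | hx1, hx2⟩
      · exact absurd hx1.1 (by norm_num)
      · exact ⟨hx1.2, key x hx2⟩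
    · refine Set.finite_empty.subset ?_
      rintro x ⟨hx1 | hx1, -⟩
      · exact hσ2 hx1.1
      · exact hσ3 hx1.1

end Main

end Pool.Agent.K6.H43.ZL
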