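import Pool.Agent.R424.TG.Hdg
import Pool.Agent.R424.MP.Main
import Pool.Agent.K6.H43.ZL.Fib

/-!
Members of families with several integral parameters: the local criterion, and the uniform count on
lines (helper file).
-/

set_option autoImplicit false

namespace Pool.Agent.K6.H43.ZL

open MvPolynomial Pool.Agent.R424.TG Pool.Agent.R424.MP
open Pool.Agent.Y152.RP.FamM (NoAtypical)

/-- The local criterion for the members of a family over a ring `S` at homomorphisms `S → ℤ`. -/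
theorem local_gen {S : Type} [CommRing S] (K : Subfield ℂ) [Countable K] {κ : Type} [Finite κ]
    {n k N m M : ℕ} (supp : κ → Finset (((Fin n ⊕ Fin k) ⊕ Fin N) →₀ ℕ))
    (c : κ → (((Fin n ⊕ Fin k) ⊕ Fin N) →₀ ℕ) → S) (h G : Fin M → S)
    (e : Fin M → κ → (((Fin n ⊕ Fin k) ⊕ Fin N) →₀ ℕ) → ℕ)
    (he : ∀ l q, ∀ β ∈ supp q, ∃ g, c q β = h l ^ e l q β * g ∧ g ∣ G l)
    (hgen : GenericOrders m supp e)
    (Γ : Finset ℂ) (hΓ : ∀ γ ∈ Γ, IsAlgebraic ℚ γ) (hΓK : ∀ γ ∈ Γ, γ ∈ K) :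
    ∃ D : ℕ, ∀ φ : S →+* ℤ, (∀ l, φ (h l) ≠ 0 ∧ ∃ p : ℕ, p.Prime ∧ D < p ∧
      (p : ℤ) ∣ φ (h l) ∧ ¬ (p : ℤ) ∣ φ (G l)) →
      NoAtypical (algebraMap (Algebra.adjoin ℤ (Γ : Set ℂ)) ℂ) K m
        (solutions supp (fun q β => ((φ (c q β) : ℤ) : ℂ)) : Set (Fin n ⊕ Fin k → ℂ)) := by
  classical
  obtain ⟨D₀, hD₀, halg⟩ := Pool.Agent.W466.ZP.alg_mem (fun z : Γ => (z : ℂ)) fun z => hΓ z z.2
  refine ⟨D₀, fun φ hgood => ?_⟩
  have hK : ∀ a : Algebra.adjoin ℤ (Γ : Set ℂ),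
      algebraMap (Algebra.adjoin ℤ (Γ : Set ℂ)) ℂ a ∈ K := by
    intro a
    have hle : Algebra.adjoin ℤ (Γ : Set ℂ) ≤ subalgebraOfSubring K.toSubring :=
      Algebra.adjoin_le fun γ hγ => hΓK γ hγ
    exact hle a.2
  refine coreB (algebraMap (Algebra.adjoin ℤ (Γ : Set ℂ)) ℂ) K hK _ _
    fun r cls d L hd hr => ?_
  obtain ⟨l, hl⟩ := hgen r cls d L hd hr
  refine ⟨e l, hl, fun ρ x hx => ?_⟩
  obtain ⟨h0, p, hp, hpD, hph, hpG⟩ := hgood l
  have hxQ : AlgebraicIndependent ℚ x := hx.restrictScalars (algebraMap ℚ K).injective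
  obtain ⟨V, hV, hVx⟩ := Pool.Agent.R424.MP.place x hxQ hp
  have hp1 : V.valuation (p : ℂ) < 1 := by rwa [ValuationSubring.mem_nonunits_iff] at hV
  have hint : ∀ w : ℤ, V.valuation (w : ℂ) ≤ 1 := fun w => by
    rw [ValuationSubring.valuation_le_one_iff]
    exact intCast_mem V w
  refine ⟨V, V.valuation ((φ (h l) : ℤ) : ℂ), ?_, ?_, fun q β hβ => ?_, fun a => ?_, hVx⟩
  · rw [Valuation.ne_zero_iff]
    exact_mod_cast h0
  · obtain ⟨w, hw⟩ := hph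
    rw [hw]
    push_cast
    rw [map_mul]
    exact (mul_le_of_le_one_right' (hint w)).trans_lt hp1
  · obtain ⟨g, hg1, hg2⟩ := he l q β hβ
    have h2 : ¬ (p : ℤ) ∣ φ g := fun h3 => hpG (h3.trans (map_dvd φ hg2))
    have h3 : φ (c q β) = φ (h l) ^ e l q β * φ g := by
      rw [hg1, map_mul, map_pow]
    rw [h3]
    push_cast
    rw [map_mul, map_pow, Pool.Agent.W466.ZP.int_unit V hp hV _ h2, mul_one]
  · rw [ValuationSubring.valuation_le_one_iff]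
    have hpD' : ¬ p ∣ D₀ := fun h1 => by
      have := Nat.le_of_dvd hD₀ h1
      omega
    have hle : Algebra.adjoin ℤ (Γ : Set ℂ) ≤ subalgebraOfSubring V.toSubring :=
      Algebra.adjoin_le fun γ hγ => halg p hp hpD' V hV ⟨γ, hγ⟩
    exact hle a.2

/-- The size of an integral vector. -/
def size {s : ℕ} (t : Fin s → ℤ) : ℕ := 1 + ∑ i, (t i).natAbs

/-- The uniform count of the bad members on lines. -/
theorem fibT {s : ℕ} (K : Subfield ℂ) [Countable K] {κ : Type} [Finite κ] {n k N m M : ℕ}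
    (supp : κ → Finset (((Fin n ⊕ Fin k) ⊕ Fin N) →₀ ℕ))
    (c : κ → (((Fin n ⊕ Fin k) ⊕ Fin N) →₀ ℕ) → Polynomial (MvPolynomial (Fin s) ℤ))
    (h : Fin M → Polynomial (MvPolynomial (Fin s) ℤ)) (hdeg : ∀ l, 0 < (h l).natDegree)
    (e : Fin M → κ → (((Fin n ⊕ Fin k) ⊕ Fin N) →₀ ℕ) → ℕ)
    (he : ∀ l q, ∀ β ∈ supp q, HasOrd (h l) (c q β) (e l q β)) (hgen : GenericOrders m supp e)
    (Γ : Finset ℂ) (hΓ : ∀ γ ∈ Γ, IsAlgebraic ℚ γ) (hΓK : ∀ γ ∈ Γ, γ ∈ K) :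
    ∃ R : MvPolynomial (Fin s) ℤ, R ≠ 0 ∧ ∀ ε : ℝ, 0 < ε → ∃ C : ℝ, ∀ X : ℕ, 1 ≤ X →
      ∀ t : Fin s → ℤ, MvPolynomial.eval t R ≠ 0 →
      ({x : ℤ | |x| ≤ X ∧ ¬ NoAtypical (algebraMap (Algebra.adjoin ℤ (Γ : Set ℂ)) ℂ) K m
          (solutions supp (fun q β => ((ev x t (c q β) : ℤ) : ℂ)) :
            Set (Fin n ⊕ Fin k → ℂ))}.ncard : ℝ) ≤ C * ((X : ℝ) * size t) ^ ε := by
  classical
  have := Fintype.ofFinite κ
  let ι := Σ q : κ, {β // β ∈ supp q}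
  have hg : ∀ (l : Fin M) (x : ι), ∃ g, c x.1 x.2 = h l ^ e l x.1 x.2 * g ∧ CoprimeTo (h l) g :=
    fun l x => he l x.1 _ x.2.2
  choose g hg1 hg2 using hg
  let G : Fin M → Polynomial (MvPolynomial (Fin s) ℤ) := fun l => ∏ x : ι, g l x
  have hcop : ∀ l, CoprimeTo (h l) (G l) := fun l => CoprimeTo.prod _ _ (hg2 l)
  obtain ⟨D₀, hD₀⟩ := local_gen (m := m) K supp c h G e (fun l q β hβ => ⟨g l ⟨q, β, hβ⟩,
    hg1 l ⟨q, β, hβ⟩, Finset.dvd_prod_of_mem _ (Finset.mem_univ (⟨q, β, hβ⟩ : ι))⟩) hgen Γ hΓ hΓK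
  choose R hR hcnt using fun l => count_fib (h l) (G l) (hdeg l) (hcop l)
  refine ⟨∏ l, R l, Finset.prod_ne_zero_iff.2 fun l _ => hR l, fun ε hε => ?_⟩
  choose P₁ hP₁ using fun l => hcnt l ε hε
  let P₀ : ℕ := D₀ + ∑ l, P₁ l
  have hP₀ : ∀ l, P₁ l ≤ P₀ := fun l =>
    (Finset.single_le_sum (f := P₁) (fun _ _ => Nat.zero_le _) (Finset.mem_univ l)).trans
      (Nat.le_add_left _ _)
  choose C hC hcount using fun l => hP₁ l P₀ (hP₀ l)
  refine ⟨∑ l, C l, fun X hX t ht => ?_⟩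
  rw [map_prod, Finset.prod_ne_zero_iff] at ht
  let B : ℕ := X * size t
  have hs1 : 1 ≤ size t := Nat.le_add_right _ _
  have hB : 1 ≤ B := Nat.one_le_iff_ne_zero.2 (Nat.mul_ne_zero (by omega) (by omega))
  have hXB : X ≤ B := Nat.le_mul_of_pos_right _ hs1
  have htB : ∀ i, |t i| ≤ B := fun i => by
    have h1 : (t i).natAbs ≤ size t :=
      (Finset.single_le_sum (f := fun i => (t i).natAbs) (fun _ _ => Nat.zero_le _)
        (Finset.mem_univ i)).trans (Nat.le_add_left _ _)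
    have h2 : (t i).natAbs ≤ B := h1.trans (Nat.le_mul_of_pos_left _ hX)
    rw [← Int.natCast_natAbs]
    exact_mod_cast h2
  let Bad : Fin M → Finset ℤ := fun l => (Finset.Icc (-(B : ℤ)) B).filter
    fun x : ℤ => ev x t (h l) = 0 ∨
      ∀ p ∈ (ev x t (h l)).natAbs.primeFactors, P₀ < p → (p : ℤ) ∣ ev x t (G l)
  have hsub : {x : ℤ | |x| ≤ X ∧ ¬ NoAtypical (algebraMap (Algebra.adjoin ℤ (Γ : Set ℂ)) ℂ) K m
          (solutions supp (fun q β => ((ev x t (c q β) : ℤ) : ℂ)) :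
            Set (Fin n ⊕ Fin k → ℂ))} ⊆ ((Finset.univ.biUnion Bad : Finset ℤ) : Set ℤ) := by
    rintro x ⟨hx, hbad⟩
    by_contra hcon
    rw [Finset.mem_coe, Finset.mem_biUnion] at hcon
    push Not at hcon
    have hxB : |x| ≤ B := hx.trans (by exact_mod_cast hXB)
    apply hbad
    refine hD₀ (ev x t) fun l => ?_
    have h1 := hcon l (Finset.mem_univ l)
    have h2 : ¬ (ev x t (h l) = 0 ∨ ∀ p ∈ (ev x t (h l)).natAbs.primeFactors, P₀ < p →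
        (p : ℤ) ∣ ev x t (G l)) := fun h3 =>
      h1 (Finset.mem_filter.2 ⟨Finset.mem_Icc.2 (abs_le.1 hxB), h3⟩)
    push Not at h2
    obtain ⟨h3, p, hp, hpP, hpG⟩ := h2
    exact ⟨h3, p, Nat.prime_of_mem_primeFactors hp, by
      change D₀ + ∑ l, P₁ l < p at hpP
      omega, Int.natCast_dvd.2 (Nat.dvd_of_mem_primeFactors hp), hpG⟩
  have hcard : ((Finset.univ.biUnion Bad).card : ℝ) ≤ ∑ l, ((Bad l).card : ℝ) := by
    exact_mod_cast Finset.card_biUnion_le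
  have hBc : ((B : ℕ) : ℝ) = (X : ℝ) * size t := by
    change ((X * size t : ℕ) : ℝ) = _
    push_cast
    rfl
  calc _ ≤ ((((Finset.univ.biUnion Bad : Finset ℤ) : Set ℤ).ncard : ℕ) : ℝ) := by
        exact_mod_cast Set.ncard_le_ncard hsub (Finset.finite_toSet _)
    _ = ((Finset.univ.biUnion Bad).card : ℝ) := by rw [Set.ncard_coe_finset]
    _ ≤ ∑ l, ((Bad l).card : ℝ) := hcard
    _ ≤ ∑ l, C l * (B : ℝ) ^ ε := Finset.sum_le_sum fun l _ =>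
        hcount l B hB t htB (ht l (Finset.mem_univ l))
    _ = (∑ l, C l) * ((X : ℝ) * size t) ^ ε := by rw [Finset.sum_mul, hBc]

end Pool.Agent.K6.H43.ZL
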