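import Pool.Agent.K6.H43.ZL.Lines

/-!
Families of subvarieties of `Y(1)^n × G_m^k` with several parameters: the members on the lines
(helper file).
-/

set_option autoImplicit false

namespace Pool.Agent.K6.H43.ZL

open MvPolynomial Pool.Agent.R424.TG Pool.Agent.R424.MX
open Pool.Agent.Y152.RP.FamM (NoAtypical)

variable {K : Subfield ℂ} {s : ℕ}

/-- The member `X_{x, t}` of the family: the points `z` of `Y(1)^n × G_m^k` over which there is a point
`(z, y)` at which all the polynomials `P q` (with coefficients at `(x, t)`) vanish. -/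
def memberL {n k N : ℕ} {κ : Type} (x : ℂ) (t : Fin s → ℂ)
    (P : κ → MvPolynomial ((Fin n ⊕ Fin k) ⊕ Fin N) (Polynomial (MvPolynomial (Fin s) K))) :
    Set (Fin n ⊕ Fin k → ℂ) :=
  {z | (∀ j, z (Sum.inr j) ≠ 0) ∧ ∃ y : Fin N → ℂ, ∀ q,
    eval₂ (valueAt K x t) (Sum.elim z y) (P q) = 0}

theorem memberL_eq {n k N : ℕ} {κ : Type} (x : ℂ) (t : Fin s → ℂ)
    (P : κ → MvPolynomial ((Fin n ⊕ Fin k) ⊕ Fin N) (Polynomial (MvPolynomial (Fin s) K))) :
    memberL x t P = member x fun q => MvPolynomial.map (Polynomial.mapRingHom (spec K t)) (P q) := by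
  ext z
  refine and_congr Iff.rfl (exists_congr fun y => forall_congr' fun q => ?_)
  rw [MvPolynomial.eval₂_map, evalAt_spec]

/-- **Families with several parameters: the members on the lines**, mixed version. -/
theorem linesM [Countable K] {κ : Type} [Finite κ] {n k N m M : ℕ}
    (E : κ → MvPolynomial ((Fin n ⊕ Fin k) ⊕ Fin N) (Polynomial (MvPolynomial (Fin s) K)))
    (h : Fin M → Polynomial (MvPolynomial (Fin s) K))
    (hsep : ∀ l, Coprime (h l) (Polynomial.derivative (h l)))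
    (hpair : ∀ l l', l ≠ l' → Coprime (h l) (h l'))
    (e : Fin M → κ → (((Fin n ⊕ Fin k) ⊕ Fin N) →₀ ℕ) → ℕ)
    (he : ∀ l q, ∀ β ∈ (E q).support, Order (h l) ((E q).coeff β) (e l q β)) :
    ∃ R : MvPolynomial (Fin s) K, R ≠ 0 ∧ ∀ t : Fin s → ℂ, valueT K t R ≠ 0 →
      ∀ σ : ℕ, GenericDegree m σ (fun q => (E q).support) h e →
      ∀ Γ : Finset ℂ, (∀ γ ∈ Γ, IsAlgebraic (fieldAt K t) γ) →
      ∀ F : Finset ℂ, (∀ z ∈ F, IsAlgebraic (fieldAt K t) z) →
        {x : ℂ | x ∈ generated σ F ∧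
          ¬ NoAtypical (algebraMap (Algebra.adjoin ℤ (Γ : Set ℂ)) ℂ) (fieldAt K t) m
            (memberL x t E)}.Finite := by
  obtain ⟨R, hR, hmain⟩ := generic_lines (m := m) E h hsep hpair e he
  refine ⟨R, hR, fun t ht σ hgen Γ hΓ F hF => ?_⟩
  obtain ⟨D, hD, hG⟩ := hmain t ht σ hgen
  have hcount : Countable (fieldAt K t) := countable_fieldAt t
  obtain ⟨-, h2, h3, -⟩ := familyT (fieldAt K t) κ n k N m _ D hD Γ hΓ F hF
  simp only [memberL_eq]
  by_cases hσ2 : σ = 2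
  · subst hσ2
    refine (h3 hG).subset ?_
    rintro x ⟨hx1 | hx1, hx2⟩
    · exact ⟨hx1.2, hx2⟩
    · exact absurd hx1.1 (by norm_num)
  · by_cases hσ3 : σ = 3
    · subst hσ3
      refine (h2 hG).subset ?_
      rintro x ⟨hx1 | hx1, hx2⟩
      · exact absurd hx1.1 (by norm_num)
      · exact ⟨hx1.2, hx2⟩
    · refine Set.finite_empty.subset ?_
      rintro x ⟨hx1 | hx1, -⟩
      · exact hσ2 hx1.1
      · exact hσ3 hx1.1

end Pool.Agent.K6.H43.ZL
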